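import Pool.Agent.helper55.ZI.Spec2
import Pool.Agent.helper54.ZI.REG
import Pool.Agent.helper64.ZI.FGI
import Pool.Agent.helper63.ZI.QIN
import Pool.Agent.helper27.ZI.PPF
import Pool.Agent.helper51.ZI.OPN
import Pool.Agent.helper85.ZI.QUO
import Pool.Agent.helper53.ZI.OPP
import Pool.Agent.helper8.ZI.HUL
import Pool.Agent.helper69.ZI.SIM
import Pool.Agent.helper98.ZI.PUR
import Pool.Agent.helper79.ZI.PNT
import Pool.Agent.helper66.ZI.DEN
import Pool.Agent.helper96.ZI.STP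
import Pool.Agent.helper58.ZI.MEE
import Pool.Agent.helper82.ZI.G2X
import Pool.Agent.helper73.ZI.SEQ
import Pool.Agent.helper11.ZI.SML
import Pool.Agent.helper5.ZI.TOW
import Pool.Agent.helper21.ZI.PTH
import Pool.Agent.helper43.ZI.TRE
import Pool.Agent.helper16.ZI.TWO
import Pool.Agent.helper56.ZI.MNP
import Pool.Agent.helper68.ZI.CLO
import Pool.Agent.helper12.ZI.ONE

/-! Assembly of project ZI. -/

namespace Pool.Agent.ZI

universe u

theorem FINAL : FINAL_stmt.{u} := by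
  have hREG := Pool.Agent.helper54.ZI.REG.{u}
  have hFGI := Pool.Agent.helper64.ZI.FGI.{u}
  have hQIN := Pool.Agent.helper63.ZI.QIN.{u}
  have hPPF := Pool.Agent.helper27.ZI.PPF.{u} hQIN
  have hOPN := Pool.Agent.helper51.ZI.OPN.{u} hPPF hQIN hFGI
  have hQUO := Pool.Agent.helper85.ZI.QUO.{u}
  have hOPP := Pool.Agent.helper53.ZI.OPP.{u}
  have hHUL := Pool.Agent.helper8.ZI.HUL.{u}
  have hSIM := Pool.Agent.helper69.ZI.SIM.{u}
  have hPUR := Pool.Agent.helper98.ZI.PUR.{u}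
  have hPNT := Pool.Agent.helper79.ZI.PNT.{u}
  have hDEN := Pool.Agent.helper66.ZI.DEN.{u}
  have hSTP := Pool.Agent.helper96.ZI.STP.{u} hDEN
  have hMEE := Pool.Agent.helper58.ZI.MEE.{u} hDEN
  have hG2X := Pool.Agent.helper82.ZI.G2X.{u}
  have hSEQ := Pool.Agent.helper73.ZI.SEQ.{u} hG2X
  have hSML := Pool.Agent.helper11.ZI.SML.{u} hSTP
  have hTOW := Pool.Agent.helper5.ZI.TOW.{u} hSEQ hSML hMEE hDEN
  have hPTH := Pool.Agent.helper21.ZI.PTH.{u}
  have hTRE := Pool.Agent.helper43.ZI.TRE.{u} hREG hSIM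
  have hTWO := Pool.Agent.helper16.ZI.TWO.{u} hTRE hPTH hTOW hHUL hSIM
  have hMNP := Pool.Agent.helper56.ZI.MNP.{u} hPPF hREG
  have hCLO := Pool.Agent.helper68.ZI.CLO.{u} hOPN
  have hONE := Pool.Agent.helper12.ZI.ONE.{u} hREG hQUO hPUR hPNT hOPN hCLO hTWO hSIM hHUL hMNP
  intro R _ S hS
  exact ⟨hONE R S hS, hONE Rᵐᵒᵖ _ (hOPP R S hS)⟩

end Pool.Agent.ZI
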