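import Mathlib

/-!
# The isolation condition: definitions (MP_337222_al)

All modules are left modules; right modules over `R` are left modules over `Rᵐᵒᵖ`.
Points of the Ziegler spectrum are taken in the universe of `R` (every indecomposable
pure-injective module has at most `2 ^ (|R| + ℵ₀)` elements).
-/

namespace Pool.Agent.ZI

universe u

/-! ## pp formulas and the Ziegler spectrum -/

/-- A pp condition in `n` variables: `∃ y, A x + B y = 0` (`m` equations, `k` bound variables). -/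
structure PP (R : Type u) (n : ℕ) where
  m : ℕ
  k : ℕ
  A : Matrix (Fin m) (Fin n) R
  B : Matrix (Fin m) (Fin k) R

/-- `φ.Holds M x`: the tuple `x` of elements of the left module `M` satisfies `φ`. -/
def PP.Holds {R : Type u} [Ring R] {n : ℕ} (φ : PP R n) (M : Type u) [AddCommGroup M]
    [Module R M] (x : Fin n → M) : Prop :=
  ∃ y : Fin φ.k → M, ∀ i, (∑ j, φ.A i j • x j) + (∑ l, φ.B i l • y l) = 0

/-- Pure monomorphism: pp conditions on elements of `N` are reflected. -/
def PureMap {R : Type u} [Ring R] {N M : Type u} [AddCommGroup N] [Module R N] [AddCommGroup M]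
    [Module R M] (f : N →ₗ[R] M) : Prop :=
  Function.Injective f ∧
    ∀ (n : ℕ) (φ : PP R n) (x : Fin n → N), φ.Holds M (fun i => f (x i)) → φ.Holds N x

/-- `N` is pure-injective: every pure monomorphism `N → M` splits. -/
def PureInjective (R : Type u) [Ring R] (N : Type u) [AddCommGroup N] [Module R N] : Prop :=
  ∀ (M : Type u) [AddCommGroup M] [Module R M] (f : N →ₗ[R] M), PureMap f →
    ∃ g : M →ₗ[R] N, ∀ x, g (f x) = x

/-- `N` is a point of the (left) Ziegler spectrum: indecomposable and pure-injective. -/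
def IsPoint (R : Type u) [Ring R] (N : ModuleCat.{u} R) : Prop :=
  PureInjective R N ∧ Nontrivial N ∧ ∀ A B : Submodule R N, IsCompl A B → A = ⊥ ∨ B = ⊥

/-- `N` lies in the basic open set `(φ/ψ)`. -/
def InPair {R : Type u} [Ring R] {n : ℕ} (φ ψ : PP R n) (N : Type u) [AddCommGroup N]
    [Module R N] : Prop :=
  ∃ x : Fin n → N, φ.Holds N x ∧ ¬ ψ.Holds N x

/-- The closed set given by a set `F` of pp pairs: the points lying in no `(φ/ψ)`, `(φ,ψ) ∈ F`. -/
def Closed (R : Type u) [Ring R] (F : Set (Σ n, PP R n × PP R n)) (N : ModuleCat.{u} R) : Prop :=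
  IsPoint R N ∧ ∀ p ∈ F, ¬ InPair p.2.1 p.2.2 N

/-- `φ/ψ` is a `Y`-minimal pair: the interval from `φ ∧ ψ` to `φ`, modulo `Y`-equivalence, has
exactly two elements. -/
def MinimalPair {R : Type u} [Ring R] (Y : ModuleCat.{u} R → Prop) {n : ℕ} (φ ψ : PP R n) : Prop :=
  (∃ N : ModuleCat.{u} R, Y N ∧ InPair φ ψ N) ∧
  ∀ θ : PP R n,
    (∀ N : ModuleCat.{u} R, Y N → ∀ x : Fin n → N, φ.Holds N x → ψ.Holds N x → θ.Holds N x) →
    (∀ N : ModuleCat.{u} R, Y N → ∀ x : Fin n → N, θ.Holds N x → φ.Holds N x) →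
    (∀ N : ModuleCat.{u} R, Y N → ∀ x : Fin n → N, θ.Holds N x → ψ.Holds N x) ∨
    (∀ N : ModuleCat.{u} R, Y N → ∀ x : Fin n → N, φ.Holds N x → θ.Holds N x)

/-- `N` is an isolated point of `Y`. -/
def IsolatedIn {R : Type u} [Ring R] (Y : ModuleCat.{u} R → Prop) (N : ModuleCat.{u} R) : Prop :=
  Y N ∧ ∃ (n : ℕ) (φ ψ : PP R n), InPair φ ψ N ∧
    ∀ N' : ModuleCat.{u} R, Y N' → InPair φ ψ N' → Nonempty (N' ≃ₗ[R] N)

/-- The isolation condition for the closed set given by `F`. -/
def IsolationCondition (R : Type u) [Ring R] (F : Set (Σ n, PP R n × PP R n)) : Prop :=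
  ∀ G : Set (Σ n, PP R n × PP R n), (∀ N, Closed R G N → Closed R F N) →
    ∀ N, IsolatedIn (Closed R G) N →
      ∃ (n : ℕ) (φ ψ : PP R n), MinimalPair (Closed R G) φ ψ ∧
        ∀ N', Closed R G N' → (InPair φ ψ N' ↔ Nonempty (N' ≃ₗ[R] N))

/-- `R` is the union of the chain `S 0 ≤ S 1 ≤ ...` of semisimple artinian subrings. -/
structure SemisimpleChain (R : Type u) [Ring R] (S : ℕ → Subring R) : Prop where
  mono : Monotone S
  ss : ∀ n, IsSemisimpleRing (S n)
  cov : ∀ r : R, ∃ n, r ∈ S n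

end Pool.Agent.ZI
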