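import Mathlib
import Pool.Agent.helper55.ZI.Defs

/-!
# Project ZI (MP_337222_al): the isolation condition for countable unions of semisimple rings

All modules are left modules.  `R` is a ring, `S 0 ≤ S 1 ≤ ...` subrings with union `R`, each of
them semisimple artinian.  Claim: every closed set of the Ziegler spectrum satisfies the isolation
condition.
-/

namespace Pool.Agent.ZI

universe u

/-- The final theorem. -/
def FINAL_stmt : Prop :=
  ∀ (R : Type u) [Ring R] (S : ℕ → Subring R), SemisimpleChain R S →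
    (∀ F, IsolationCondition R F) ∧ (∀ F, IsolationCondition Rᵐᵒᵖ F)

/-! ## Ring facts -/

/-- Rings of the class are von Neumann regular.
Proof: `r ∈ S n =: A`, `A` semisimple; the left ideal `A r` has a complement `L`; `1 = a + b` with
`a = t r`, `b ∈ L`; `r = r a + r b`, `r - r a = r b` lies in `A r ∩ L = 0`. -/
def REG_stmt : Prop :=
  ∀ (R : Type u) [Ring R] (S : ℕ → Subring R), SemisimpleChain R S → ∀ r : R, ∃ t, r * t * r = r

/-- Finitely generated left ideals are generated by an idempotent.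
Proof: all `p i` lie in one `S n` (finite maximum, monotone), whose left ideal generated by them
has a complement; decompose `1 = ε + b`; then `p i * ε = p i` and `ε * ε = ε`. -/
def FGI_stmt : Prop :=
  ∀ (R : Type u) [Ring R] (S : ℕ → Subring R), SemisimpleChain R S →
    ∀ (n : ℕ) (p : Fin n → R), ∃ (ε : R) (q : Fin n → R),
      ε * ε = ε ∧ (∀ i, p i * ε = p i) ∧ ε = ∑ i, q i * p i

/-- Matrices have quasi-inverses.
Proof: all entries of `B` lie in one `A = S n`.  `x ↦ x B` (rows) is a left linear map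
`f : A^m → A^k` of semisimple modules, so there is `g` with `f g f = f` (complements of the kernel
and of the range; `LinearMap.toMatrixRight'` / `Matrix.toLinearMapRight'`, or give the matrix of
`g` by hand). Then transfer to `R`. -/
def QIN_stmt : Prop :=
  ∀ (R : Type u) [Ring R] (S : ℕ → Subring R), SemisimpleChain R S →
    ∀ (m k : ℕ) (B : Matrix (Fin m) (Fin k) R), ∃ B' : Matrix (Fin k) (Fin m) R, B * B' * B = B

/-- Every pp formula is equivalent to a system of linear equations, in all modules.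
Proof: `C = (1 - B B') A`.  If `A x + B y = 0` then `C x = -(1 - B B') B y = 0`; if `C x = 0` take
`y = - B' A x`. -/
def PPF_stmt : Prop :=
  ∀ (R : Type u) [Ring R] (S : ℕ → Subring R), SemisimpleChain R S →
    ∀ (n : ℕ) (φ : PP R n), ∃ (m : ℕ) (C : Matrix (Fin m) (Fin n) R),
      ∀ (M : Type u) [AddCommGroup M] [Module R M] (x : Fin n → M),
        φ.Holds M x ↔ ∀ i, ∑ j, C i j • x j = 0

/-- Basic open sets are given by an idempotent.
Proof: by PPF `φ x ⟺ C x = 0`, `ψ x ⟺ D x = 0`; by QIN `C C' C = C`; the solutions of `C x = 0`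
are the tuples `(1 - C' C) z`; so some `x` satisfies `φ` and not `ψ` iff `D (1 - C' C) z ≠ 0` for
some `z` iff some entry `P i j` of `P = D (1 - C' C)` does not annihilate `M`; take `ε` from FGI for
the entries of `P` (a left ideal generated by `ε`; use `finProdFinEquiv` to enumerate). -/
def OPN_stmt : Prop :=
  ∀ (R : Type u) [Ring R] (S : ℕ → Subring R), SemisimpleChain R S →
    ∀ (n : ℕ) (φ ψ : PP R n), ∃ ε : R,
      ∀ (M : Type u) [AddCommGroup M] [Module R M], InPair φ ψ M ↔ ∃ y : M, ε • y ≠ 0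

/-- Quotients (images) of rings of the class are in the class. -/
def QUO_stmt : Prop :=
  ∀ (R R' : Type u) [Ring R] [Ring R'] (π : R →+* R'), Function.Surjective π →
    ∀ S : ℕ → Subring R, SemisimpleChain R S → SemisimpleChain R' (fun n => (S n).map π)

/-- Opposite rings of rings of the class are in the class. (`Subring.op`; the opposite of a
semisimple ring is semisimple, an instance in Mathlib, and `(S n).op ≃+* (S n)ᵐᵒᵖ`.) -/
def OPP_stmt : Prop :=
  ∀ (R : Type u) [Ring R] (S : ℕ → Subring R), SemisimpleChain R S →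
    SemisimpleChain Rᵐᵒᵖ (fun n => (S n).op)

/-! ## Module facts -/

/-- Uniform module: not zero, and two nonzero submodules meet. -/
def Uniform (R : Type u) [Ring R] (M : Type u) [AddCommGroup M] [Module R M] : Prop :=
  Nontrivial M ∧ ∀ A B : Submodule R M, A ≠ ⊥ → B ≠ ⊥ → A ⊓ B ≠ ⊥

/-- Injective hulls of uniform modules.
Proof: embed `M` in an injective module `Q` of the same universe (Mathlib: enough injectives for
`ModuleCat.{u} R`, or the Baer construction).  By Zorn take a submodule `N` of `Q` maximal among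
those which contain the image of `M` and in which it is essential.  `N` is a direct summand of `Q`:
take `C` maximal with `C ∩ N = 0` (Zorn); `N → Q/C` is injective and essential; extend the inclusion
`N → Q` along it to `h : Q/C → Q`, injective by essentiality; its range is an essential extension of
`N`, so equal to `N` by maximality; hence `Q = N + C`.  So `N` is injective.  Uniform: `A ⊓ M` and
`B ⊓ M` are nonzero. -/
def HUL_stmt : Prop :=
  ∀ (R : Type u) [Ring R] (M : Type u) [AddCommGroup M] [Module R M], Uniform R M →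
    ∃ (N : Type u) (_ : AddCommGroup N) (_ : Module R N), Module.Baer R N ∧ Uniform R N ∧
      ∃ f : M →ₗ[R] N, Function.Injective f ∧
        ∀ A : Submodule R N, A ≠ ⊥ → A ⊓ LinearMap.range f ≠ ⊥

/-- Simple modules with a fixed vector of a given nonzero idempotent (`R/L`, `L` a maximal left
ideal containing `1 - f`). -/
def SIM_stmt : Prop :=
  ∀ (R : Type u) [Ring R] (f : R), f * f = f → f ≠ 0 →
    ∃ (T : Type u) (_ : AddCommGroup T) (_ : Module R T), IsSimpleModule R T ∧
      ∃ t : T, t ≠ 0 ∧ f • t = t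

/-- Change of rings: `R` regular, `π : R → R'` surjective; an injective `R'`-module is injective
over `R`.  Proof (Baer): `g : L → N`, `L` a left ideal of `R`; if `r ∈ L`, `π r = 0`, `r = r t r`
then `g r = (r t) • g r = π (r t) • g r = 0`; so `g` factors through the left ideal `π L` of `R'`. -/
def PUR_stmt : Prop :=
  ∀ (R R' : Type u) [Ring R] [Ring R'] (π : R →+* R'), Function.Surjective π →
    (∀ r : R, ∃ t, r * t * r = r) →
    ∀ (N : Type u) [AddCommGroup N] [Module R N] [Module R' N], (∀ (r : R) (x : N), r • x = π r • x) →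
      Module.Baer R' N → Module.Baer R N

/-- Injective uniform modules are points (`Module.Baer.injective`, extension property; a
decomposition of a uniform module is trivial). -/
def PNT_stmt : Prop :=
  ∀ (R : Type u) [Ring R] (N : Type u) [AddCommGroup N] [Module R N], Module.Baer R N →
    Uniform R N → IsPoint R (ModuleCat.of R N)

/-! ## The key construction -/

/-- Density. `V` simple over `A`, `y, z : Fin b → V`; if every relation `∑ λ_i (y_i) = 0`,
`λ_i ∈ End V`, holds for `z`, then `z = a y` for some `a ∈ A`.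
Proof: the submodule `A y` of the semisimple module `V^b`; if `z ∉ A y` there is a linear map
`V^b → V` which vanishes on `A y` and not on `z` (complement; coordinates). -/
def DEN_stmt : Prop :=
  ∀ (A V : Type u) [Ring A] [AddCommGroup V] [Module A V] [IsSimpleModule A V] (b : ℕ)
    (y z : Fin b → V),
    (∀ l : Fin b → (V →ₗ[A] V), ∑ i, l i (y i) = 0 → ∑ i, l i (z i) = 0) →
      ∃ a : A, ∀ i, a • y i = z i

/-- `y` satisfies at most `ν` independent relations: there are `ν` coordinates such that a relation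
which vanishes on them is zero. -/
def Small (A : Type u) {V : Type u} [Ring A] [AddCommGroup V] [Module A V] {b : ℕ}
    (y : Fin b → V) (ν : ℕ) : Prop :=
  ∃ J : Finset (Fin b), J.card ≤ ν ∧
    ∀ l : Fin b → (V →ₗ[A] V), (∀ j ∈ J, l j = 0) → ∑ i, l i (y i) = 0 → ∀ i, l i = 0

/-- The genericity condition for `g`. -/
def G2 {A A' V V' : Type u} [Ring A] [Ring A'] [AddCommGroup V] [Module A V] [AddCommGroup V']
    [Module A' V'] {φ : A →+* A'} (ι : V →ₛₗ[φ] V') {b : ℕ} (g : Fin b → (V →ₛₗ[φ] V')) : Prop :=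
  ∀ κ : Fin b → (V →ₗ[A] V), (∀ i, ∃ κ' : V' →ₗ[A'] V', ∀ v, κ' (ι v) = ι (κ i v)) →
    (∃ h : V' →ₗ[A'] V', ∀ v, ∑ i, g i (κ i v) = h (ι v)) → ∀ i, κ i = 0

/-- The step lemma: the number of relations does not grow.
Proof.  Schur: `E = End_A V`, `E' = End_A' V'` are division rings (nonzero endomorphisms are
bijective).  Let `I` be a maximal set of indices containing the complement of the given `J₀` such
that the `y_i` (`i ∈ I`) are `E`-independent (a relation supported on `I` is zero); `J` the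
complement of `I`, so `|J| ≤ ν`; for `j ∈ J`: `y_j = ∑_{i ∈ I} κ_ji (y_i)` with `κ_ji ∈ E` (by
maximality and division).  `I` is not empty as `y ≠ 0`.  A relation `(λ, μ)` of the new tuple,
`∑ λ_i (ι y_i) + μ (∑ g_i y_i) = 0`, gives `∑_{i ∈ I} γ_i (y_i) = 0` where
`γ_i = λ_i ι + μ g_i + ∑_{j ∈ J} (λ_j ι + μ g_j) κ_ji : V → V'`; by density (DEN, for the
independent `y_i`, `i ∈ I`; or: for `v ∈ V`, `i ∈ I` there is `a` with `a y_i = v`, `a y_i' = 0` for
the other `i' ∈ I`) and semilinearity `γ_i = 0` for all `i ∈ I`.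
Case (a): every new relation with `λ_j = 0` for all `j ∈ J` is zero: take `J' = J` (castSucc).
Case (b): there is a nonzero one, `(λ⁰, μ⁰)`.  `μ⁰ ≠ 0` (otherwise `λ⁰_i ι = 0`, so `λ⁰_i` is not
injective, so `0`).  Fix `i₀ ∈ I`: `μ⁰ (g_{i₀} + ∑_J g_j κ_{j i₀}) = - λ⁰_{i₀} ι`; multiply by the
inverse of `μ⁰`.  By G2 with `κ_{i₀} = 1`, `κ_j = κ_{j i₀}` (`j ∈ J`), the others `0`, some
`κ_{j₀ i₀}` (`j₀ ∈ J`) is NOT rational: there is no `κ' ∈ E'` with `κ' ι = ι κ_{j₀ i₀}`.  Take
`J' = J \ {j₀} ∪ {last}`: a relation with `μ = 0` and `λ_j = 0` for `j ∈ J \ {j₀}` gives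
`λ_{i₀} ι + λ_{j₀} ι κ_{j₀ i₀} = 0`; if `λ_{j₀} ≠ 0` then `κ_{j₀ i₀}` is rational with
`κ' = - λ_{j₀}⁻¹ λ_{i₀}`, contradiction; so `λ_{j₀} = 0` and then `λ_i ι = 0`, `λ_i = 0`. -/
def STP_stmt : Prop :=
  ∀ (A A' V V' : Type u) [Ring A] [Ring A'] [AddCommGroup V] [Module A V] [AddCommGroup V']
    [Module A' V'] [IsSimpleModule A V] [IsSimpleModule A' V'] (φ : A →+* A') (ι : V →ₛₗ[φ] V')
    (b : ℕ) (g : Fin b → (V →ₛₗ[φ] V')), Function.Injective ι → G2 ι g →
    ∀ (y : Fin b → V) (ν : ℕ), y ≠ 0 → Small A y ν →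
      Small A' (Fin.snoc (fun i => ι (y i)) (∑ i, g i (y i)) : Fin (b + 1) → V') ν

/-- Two tuples with few relations have a common nonzero multiple.
Proof: `N = A y` and `N' = A y'` are submodules of `V^b` (length `b`).  The projection of `N` to the
coordinates outside `J` is onto (density), so `N` has length at least `b - ν`; the same for `N'`;
`2 ν < b` gives `N ⊓ N' ≠ 0`. -/
def MEE_stmt : Prop :=
  ∀ (A V : Type u) [Ring A] [AddCommGroup V] [Module A V] [IsSimpleModule A V] (b ν : ℕ)
    (y y' : Fin b → V), 2 * ν < b → Small A y ν → Small A y' ν →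
      ∃ a a' : A, (∀ i, a • y i = a' • y' i) ∧ ∃ i, a • y i ≠ 0

/-- `V_m = S_m s₀`. -/
def VV {R : Type u} [Ring R] (S : ℕ → Subring R) {T : Type u} [AddCommGroup T] [Module R T]
    (s₀ : T) (m : ℕ) : Submodule (S m) T :=
  Submodule.span (S m) {s₀}

/-- Path data. -/
def Path {R : Type u} [Ring R] (S : ℕ → Subring R) {T : Type u} [AddCommGroup T] [Module R T]
    (s₀ : T) : Prop :=
  (∀ k, IsSimpleModule (S k) (VV S s₀ k)) ∧
  ∀ k, ∃ t ∈ VV S s₀ (k + 1), (∀ a ∈ S k, a • s₀ = 0 → a • t = 0) ∧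
    ∃ a ∈ S (k + 1), a • s₀ = 0 ∧ a • t ≠ 0

/-- Inclusion of the rings of the chain. -/
def rinc {R : Type u} [Ring R] {S : ℕ → Subring R} (hS : Monotone S) {m m' : ℕ} (h : m ≤ m') :
    S m →+* S m' :=
  Subring.inclusion (hS h)

/-- Generic maps exist after a jump.  Here maps `V_m → V_m'` are semilinear for `rinc`.
Proof: induction on `b`; `b = 0` trivial.  Given `m'`, `g` for `b`; put `m'' = m' + 1`, `t` from the
path data for `k = m'`, `g' : V_m' → V_m''`, `a s₀ ↦ a t` (well defined by the first property).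
New list: `ι' g_1, ..., ι' g_b, g' ι`.  Suppose `κ_i` (`i ≤ b`) extend to `V_m''` and
`∑ ι' g_i κ_i + g' ι κ_b = h ι` on `V_m`.  The extension `κ'` of `κ_b` to `V_m''` preserves `V_m'`
(as `V_m' = S_m' V_m`); `Φ = g' κ' - h` on `V_m'` maps `V_m` to `V_m'`, so maps `V_m'` to `V_m'`,
`Φ = ε ∈ End V_m'`, `ε ι = - ∑ g_i κ_i`, and the `κ_i` (`i < b`) extend to `V_m'` (restrict the
extensions to `V_m''`).  By G2 for `m'`: `κ_i = 0` for `i < b`, so `Φ = 0` on `V_m`, so on `V_m'`.
If `κ_b ≠ 0` then `κ'` is invertible (Schur) and `g' = h κ'⁻¹` on `V_m'` is the restriction of an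
endomorphism `h'` of `V_m''`; with the `a` of the path data `a s₀ = 0`, so
`0 = h' (a s₀) = a h' (s₀) = a g' (s₀) = a t`, a contradiction. -/
def G2X_stmt : Prop :=
  ∀ (R : Type u) [Ring R] (S : ℕ → Subring R) (hS : Monotone S) (T : Type u) [AddCommGroup T]
    [Module R T] (s₀ : T), Path S s₀ → ∀ (m b : ℕ),
    ∃ (m' : ℕ) (h : m < m') (ι : VV S s₀ m →ₛₗ[rinc hS h.le] VV S s₀ m')
      (g : Fin b → (VV S s₀ m →ₛₗ[rinc hS h.le] VV S s₀ m')),
      (∀ v, ((ι v : VV S s₀ m') : T) = (v : T)) ∧ G2 ι g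

/-- The uniform module with zero socle.
Proof.  By G2X choose recursively stages `m 0 = 0 < m 1 < ...` and elements `s 0 = s₀`,
`s (k+1) = ∑_{i ≤ k} g^k_i (s i)`, where `s i ∈ V_(m k)` for `i ≤ k` and
`g^k : Fin (k+1) → (V_(m k) → V_(m (k+1)))` has G2.  `M = R x ⊆ (ℕ → T)`, `x = (s 0, s 1, ...)`.
(1) If `r ∈ S (m k)` and `r • s i = 0` for all `i ≤ k` then `r • s j = 0` for all `j` (induction,
semilinearity), so `r • x = 0`.
(2) For `y = r • x ≠ 0`, `r ∈ S (m k)`: `y^(k) = (r • s i)_{i ≤ k}` is not zero, so `Small y^(k) k`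
(`J` = all indices but one with `y_i ≠ 0`; a nonzero endomorphism of a simple module is injective);
by STP `Small y^(k') k` for all `k' ≥ k` (`r • s (k'+1) = ∑ g_i (r • s i)`).
(3) For nonzero `y = r • x`, `y' = r' • x` take `k` with `r, r' ∈ S (m k)` and `k' = 2 k`; MEE for
`b = k' + 1` gives `a, a' ∈ S (m k')` with `a • y^(k') = a' • y'^(k') ≠ 0`; by (1)
`a • y = a' • y' ≠ 0`.  So `M` is uniform.
(4) `x^(k) = (s 0, ..., s k)` is `Small 0` for all `k` (STP with `ν = 0`, start `k = 0`).  So for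
every `j` there is `r ∈ R` with `r • s j = 0`, `r • x ≠ 0` (DEN at a stage `k ≥ max j 1`).
(5) No simple submodule: `y ∈ M` nonzero, `y_j ≠ 0`; by (4) there is a nonzero `z ∈ M` with
`z_j = 0`; by (3) `R y ∩ R z` contains a nonzero `y'`; `y'_j = 0`, so `y ∉ R y'` and `R y` is not
simple. -/
def TOW_stmt : Prop :=
  ∀ (R : Type u) [Ring R] (S : ℕ → Subring R), Monotone S → (∀ r : R, ∃ n, r ∈ S n) →
    ∀ (T : Type u) [AddCommGroup T] [Module R T] (s₀ : T) (e : R), s₀ ≠ 0 → e • s₀ = s₀ →
      Path S s₀ →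
    ∃ (M : Type u) (_ : AddCommGroup M) (_ : Module R M), Uniform R M ∧
      (∀ B : Submodule R M, ¬ IsSimpleModule R B) ∧ ∃ x : M, e • x ≠ 0

/-- A node: a maximal left ideal of `S m` (given as a subset of `R`) containing `1 - e`. -/
def Node {R : Type u} [Ring R] (S : ℕ → Subring R) (e : R) (m : ℕ) (L : Ideal (S m)) : Prop :=
  L.IsMaximal ∧ e ∈ S m ∧ ∃ a ∈ L, (a : R) = 1 - e

/-- The node `(m, L)` branches: there are a node `(m', L')` above it and `x ∈ S m'` with
`L x ⊆ L'` and not `L' x ⊆ L'`. -/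
def Branches {R : Type u} [Ring R] (S : ℕ → Subring R) (e : R) (m : ℕ) (L : Ideal (S m)) : Prop :=
  ∃ (m' : ℕ) (L' : Ideal (S m')), m < m' ∧ Node S e m' L' ∧
    (∀ a ∈ L, ∃ a' ∈ L', (a' : R) = (a : R)) ∧
    ∃ x ∈ S m', (∀ a ∈ L, ∃ a' ∈ L', (a' : R) = (a : R) * x) ∧
      ∃ a ∈ L', ∀ a' ∈ L', (a' : R) ≠ (a : R) * x

/-- If every node branches there is a path (for a subsequence of the chain).
Proof: `e ∈ S m₀`; the left ideal `S m₀ (1 - e)` is proper (`1 = a (1 - e)` gives `e = 0`), so it is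
contained in a maximal one: a node.  Iterate `Branches`: nodes `(σ k, L_k)`, `σ` strictly monotone,
`L_k ⊆ L_(k+1)`.  `L = ⋃ L_k` is a left ideal of `R`, `L ∩ S (σ k) = L_k` (maximality, `1 ∉ L`).
`T = R/L`, `s₀` the class of `1`; `1 - e ∈ L` gives `e s₀ = s₀`; `V_k = S (σ k) s₀ ≅ S (σ k)/L_k` is
simple; `t = x s₀` has the two properties (`a s₀ = 0 ⟺ a ∈ L`, `a t = 0 ⟺ a x ∈ L`). -/
def PTH_stmt : Prop :=
  ∀ (R : Type u) [Ring R] (S : ℕ → Subring R), SemisimpleChain R S →
    ∀ e : R, e * e = e → e ≠ 0 → (∀ m (L : Ideal (S m)), Node S e m L → Branches S e m L) →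
    ∃ (σ : ℕ → ℕ) (_ : StrictMono σ) (T : Type u) (_ : AddCommGroup T) (_ : Module R T) (s₀ : T),
      s₀ ≠ 0 ∧ e • s₀ = s₀ ∧ Path (fun k => S (σ k)) s₀

/-- If some node does not branch and there is no division corner under `e`, there are two
nonisomorphic simple modules on which `e` does not vanish.
Proof.  Let `(m, L)` be such a node, `A = S m`.  `L` has a complement, so `L = {a : a f = 0}
= A (1 - f)` for an idempotent `f ∈ A`, `f ≠ 0`; from `1 - e ∈ L`: `e f = f`; replacing `f` by `f e`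
we may assume `f e = f` too (`{a : a f = 0} = {a : a f e = 0}` as `f e f = f`).
(i) For every idempotent `h` with `h f = h = f h` and every `x ∈ R`: `h x (f - h) = 0`.  Suppose
`u = h x (f - h) ≠ 0`; take `m' > m` with `h, x, u ∈ S m'`; `S m'` is semisimple, so there is a
maximal left ideal `Q` of `S m'` with `u ∉ Q`; `v` = class of `1` in `S m'/Q`, `u v ≠ 0`;
`w = (f - h) v`, `t = h x w = u v ≠ 0`.  `L' = {a : a w = 0}` is a maximal left ideal of `S m'`
(`w ≠ 0` in a simple module) containing `L` (`(1 - f) w = 0`) and `1 - e` (`e w = w`): a node above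
`(m, L)`; the element `y ∈ S m'` with `y w = t`, `y = h x`: `L y ⊆ L'` because
`(1 - f) t = 0`; since the node does not branch, `L' y ⊆ L'`, so `h w = 0` gives `h t = 0`, but
`h t = t ≠ 0`.
(ii) `f R f` is not a division ring (hypothesis for `f`): there is `r` with `f r f ≠ 0` and no left
inverse; regularity (REG) of `f r f =: c`, `c t c = c`: `h = f t c` (`= f t f c`) is an idempotent
with `h f = h`, `f h = h`, `h ≠ 0` (`c h = c`), `h ≠ f` (otherwise `f t f` is a left inverse).
(iii) `T₁` simple with `t₁ = h t₁ ≠ 0`, `T₂` simple with `t₂ = (f - h) t₂ ≠ 0` (SIM).  If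
`T₁ ≅ T₂` then in `T₁` there are `t₁ = h t₁ ≠ 0` and `t₂ = (f - h) t₂ ≠ 0`, `t₁ = x t₂` for some
`x`, so `t₁ = h x (f - h) t₂ = 0`.  `e t_i = t_i` as `e f = f`. -/
def TRE_stmt : Prop :=
  ∀ (R : Type u) [Ring R] (S : ℕ → Subring R), SemisimpleChain R S →
    ∀ e : R, e * e = e → e ≠ 0 →
    (∀ f : R, f * f = f → e * f = f → f * e = f → f ≠ 0 →
      ∃ r, f * r * f ≠ 0 ∧ ∀ s, s * (f * r * f) ≠ f) →
    ∀ m (L : Ideal (S m)), Node S e m L → ¬ Branches S e m L →
    ∃ (T₁ : Type u) (_ : AddCommGroup T₁) (_ : Module R T₁) (T₂ : Type u) (_ : AddCommGroup T₂)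
      (_ : Module R T₂), IsSimpleModule R T₁ ∧ IsSimpleModule R T₂ ∧ (∃ x : T₁, e • x ≠ 0) ∧
      (∃ x : T₂, e • x ≠ 0) ∧ ¬ Nonempty (T₁ ≃ₗ[R] T₂)

/-- Two points. Uses TRE, PTH, TOW, HUL, SIM.
Proof.  If some node does not branch: TRE and hulls `N_i` of the simple `T_i`; an isomorphism
`N₁ ≅ N₂` maps the image of `T₁` (simple) into ... the image of `T₂` (every simple submodule of `N₂`
meets the image of `T₂`, so equals it), so `T₁ ≅ T₂`.  Otherwise PTH (for the chain `S ∘ σ`, which
also covers `R`: `n ≤ σ n`) and TOW give `M` uniform without simple submodules, `e M ≠ 0`, and SIM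
gives a simple `T` with `e T ≠ 0`; hulls; the hull of `M` has no simple submodule (it would meet the
image of `M`, so lie in it). -/
def TWO_stmt : Prop :=
  ∀ (R : Type u) [Ring R] (S : ℕ → Subring R), SemisimpleChain R S →
    ∀ e : R, e * e = e → e ≠ 0 →
    (∀ f : R, f * f = f → e * f = f → f * e = f → f ≠ 0 →
      ∃ r, f * r * f ≠ 0 ∧ ∀ s, s * (f * r * f) ≠ f) →
    ∃ (N₁ : Type u) (_ : AddCommGroup N₁) (_ : Module R N₁) (N₂ : Type u) (_ : AddCommGroup N₂)
      (_ : Module R N₂), Module.Baer R N₁ ∧ Uniform R N₁ ∧ Module.Baer R N₂ ∧ Uniform R N₂ ∧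
      (∃ x : N₁, e • x ≠ 0) ∧ (∃ x : N₂, e • x ≠ 0) ∧ ¬ Nonempty (N₁ ≃ₗ[R] N₂)

/-! ## The minimal pair and the end -/

/-- The condition `c x = 0` in one variable. -/
def annPP {R : Type u} (c : R) : PP R 1 :=
  ⟨1, 0, fun _ _ => c, fun _ l => l.elim0⟩

/-- The minimal pair `x = f x` over `x = 0`.
Proof.  `InPair` for the `N`, `x` with `f x ≠ 0`: the tuple `f x`.  `θ`: by PPF `θ x ⟺ c_i x = 0`
for all `i`.  If `(c_i f) N = 0` for all `i` and all `N ∈ Y`: for `x = f x`, `c_i x = c_i f x = 0`.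
Otherwise some `c = c_i f` does not vanish on `Y`; `c t c = c` (regular); `r = t c_i`... the element
`f r f = f (t c_i) f = f t c` does not vanish on `Y` (`c (f t c) = c_i f f t c` acts on `Y` as
`c_i f t c = c t c = c`), so there is `s` with `s (f t c) = f` on `Y`; if `θ x` holds then
`x = f x` (`θ ≤ φ`) and `c_i x = 0`, so `x = f x = s f t c_i f x = s f t c_i x = 0`. -/
def MNP_stmt : Prop :=
  ∀ (R : Type u) [Ring R] (S : ℕ → Subring R), SemisimpleChain R S →
    ∀ (Y : ModuleCat.{u} R → Prop) (f : R),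
    (∀ N : ModuleCat.{u} R, Y N → ∀ x : N, f • f • x = f • x) →
    (∀ r : R, (∀ N : ModuleCat.{u} R, Y N → ∀ x : N, (f * r * f) • x = 0) ∨
      ∃ s : R, ∀ N : ModuleCat.{u} R, Y N → ∀ x : N, (s * (f * r * f)) • x = f • x) →
    (∃ N : ModuleCat.{u} R, Y N ∧ ∃ x : N, f • x ≠ 0) →
    MinimalPair Y (annPP (1 - f)) (annPP 1)

/-- The two-sided ideal of the elements vanishing on a class of modules. -/
def VanIdeal {R : Type u} [Ring R] (Y : ModuleCat.{u} R → Prop) : Ideal R where
  carrier := {r | ∀ N : ModuleCat.{u} R, Y N → ∀ x : N, r • x = 0}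
  add_mem' := by
    intro a b ha hb N hN x
    rw [add_smul, ha N hN x, hb N hN x, add_zero]
  zero_mem' := by
    intro N _ x
    exact zero_smul R x
  smul_mem' := by
    intro c a ha N hN x
    rw [smul_eq_mul, mul_smul, ha N hN x, smul_zero]

/-- A point lies in a closed set iff the ideal of the closed set kills it (OPN: each pair of `G` is
given by an `ε`, which vanishes on `Y`). -/
def CLO_stmt : Prop :=
  ∀ (R : Type u) [Ring R] (S : ℕ → Subring R), SemisimpleChain R S →
    ∀ (G : Set (Σ n, PP R n × PP R n)) (N : ModuleCat.{u} R), IsPoint R N →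
      (∀ r ∈ VanIdeal (Closed R G), ∀ x : N, r • x = 0) → Closed R G N

/-- One side. Uses REG, QUO, PUR, PNT, OPN, CLO, TWO, SIM, HUL, MNP.
Proof.  `Y = Closed R G`, `N` isolated by `(φ/ψ)`, `ε` from OPN; `I = VanIdeal Y` (two-sided),
`R' = R/I`, `π` the projection; `R'` is in the class (QUO).  By FGI/OPN we may take for `e ∈ R'` an
idempotent generating the left ideal `R' π(ε)` (REG in `R'`: `e = t π(ε)`, `π(ε) = π(ε) e`); `e ≠ 0`
as `ε` does not kill `N ∈ Y`.  An `R'`-module `N'` which is Baer and uniform over `R'` with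
`e N' ≠ 0` is, as an `R`-module (`Module.compHom`), Baer (PUR, REG), uniform, a point (PNT), in `Y`
(CLO) and in `(φ/ψ)`; so isomorphic to `N`.  If there were no division corner under `e` in `R'`,
TWO would give two nonisomorphic such modules (an `R`-isomorphism of them is an `R'`-isomorphism as
`π` is surjective), a contradiction.  So there is `f' ∈ R'`, `f'² = f' ≠ 0`, `e f' = f' = f' e`,
such that each `f' r f'` is `0` or has a left inverse; `f ∈ R` with `π f = f'`; MNP gives the
minimal pair.  For `N' ∈ Y`: `N' ∈ (annPP (1 - f)/annPP 1)` iff `f N' ≠ 0`.  If `f x ≠ 0` then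
`e f' = f'` gives `ε N' ≠ 0`, `N' ∈ (φ/ψ)`, `N' ≅ N`.  Conversely SIM and HUL for `R'`, `f'` give
one point of `Y` on which `f` (so `ε`) does not vanish; it is isomorphic to `N`, so `f N ≠ 0`. -/
def ONE_stmt : Prop :=
  ∀ (R : Type u) [Ring R] (S : ℕ → Subring R), SemisimpleChain R S →
    ∀ F, IsolationCondition R F

end Pool.Agent.ZI
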