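import Pool.Agent.helper55.ZI.Spec

/-! Spec2 of project ZI: the recursion. -/

namespace Pool.Agent.ZI

universe u

/-- The sequence data used in TOW: stages `m k`, elements `s k`. -/
def SeqData {R : Type u} [Ring R] (S : ℕ → Subring R) (hS : Monotone S) {T : Type u}
    [AddCommGroup T] [Module R T] (s₀ : T) (m : ℕ → ℕ) (s : ℕ → T) : Prop :=
  m 0 = 0 ∧ StrictMono m ∧ s 0 = s₀ ∧ ∀ k, (∀ i ≤ k, s i ∈ VV S s₀ (m k)) ∧
    ∃ (hm : m k ≤ m (k + 1)) (ι : VV S s₀ (m k) →ₛₗ[rinc hS hm] VV S s₀ (m (k + 1)))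
      (g : Fin (k + 1) → (VV S s₀ (m k) →ₛₗ[rinc hS hm] VV S s₀ (m (k + 1)))),
      (∀ v, ((ι v : VV S s₀ (m (k + 1))) : T) = (v : T)) ∧ G2 ι g ∧
      ∀ y : Fin (k + 1) → VV S s₀ (m k), (∀ i, (y i : T) = s i) →
        s (k + 1) = ((∑ i, g i (y i) : VV S s₀ (m (k + 1))) : T)

/-- Existence of the sequence data, from G2X by recursion (`Nat.rec` on a subtype, or a sigma type
holding the stage, the finite list `s : ℕ → T`, and the memberships).  `VV` grows with the stage. -/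
def SEQ_stmt : Prop :=
  ∀ (R : Type u) [Ring R] (S : ℕ → Subring R) (hS : Monotone S) (T : Type u) [AddCommGroup T]
    [Module R T] (s₀ : T), Path S s₀ → ∃ (m : ℕ → ℕ) (s : ℕ → T), SeqData S hS s₀ m s

/-- Relations do not grow along the sequence: iterate STP (`y'` at stage `k + 1` is the `Fin.snoc`
of `ι (y i)` and `∑ g i (y i)`, because `r • s (k+1) = ∑ g_i (r • s_i)` for `r ∈ S (m k)`); `y ≠ 0`
is preserved. -/
def SML_stmt : Prop :=
  ∀ (R : Type u) [Ring R] (S : ℕ → Subring R) (hS : Monotone S) (T : Type u) [AddCommGroup T]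
    [Module R T] (s₀ : T), Path S s₀ → ∀ (m : ℕ → ℕ) (s : ℕ → T), SeqData S hS s₀ m s →
    ∀ (k ν : ℕ) (r : R), r ∈ S (m k) → ∀ y : Fin (k + 1) → VV S s₀ (m k),
      (∀ i, (y i : T) = r • s i) → y ≠ 0 → Small (S (m k)) y ν →
      ∀ k' ≥ k, ∀ y' : Fin (k' + 1) → VV S s₀ (m k'), (∀ i, (y' i : T) = r • s i) →
        Small (S (m k')) y' ν

end Pool.Agent.ZI
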